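import Pool.Agent.XE31.V11

/-!
# MP_a812b2_nt: the density hypothesis for every irreducible representation separately

For every `ε > 0` there is a constant `C` such that for every irreducible unitary representation `ρ`
of `SL(2,ℤ)` of dimension `d` which is trivial on some `Γ(N)` (no matter which), the Laplace
eigenvalues `1/4 - ν_i ^ 2` with `ν_i ≥ ε` of the square integrable `ρ`-valued automorphic functions
`F : ℍ → ℂ ^ d`, `F (γ z) = ρ(γ) F(z)`, satisfy `∑ d ^ (2 ν_i) ≤ C d ^ (1 + ε)`.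
-/

set_option autoImplicit false

open MeasureTheory
open scoped MatrixGroups UpperHalfPlane

namespace Pool.Agent.Results.MP_a812b2_nt.RepresentationDensity

/-- `ρ` is irreducible: `d > 0` and no subspace of `ℂ ^ d` but `0` and `ℂ ^ d` is invariant. -/
def IsIrreducible {d : ℕ} (ρ : SL(2, ℤ) →* Matrix.unitaryGroup (Fin d) ℂ) : Prop :=
  0 < d ∧ ∀ W : Submodule ℂ (Fin d → ℂ),
    (∀ (γ : SL(2, ℤ)), ∀ v ∈ W, Matrix.mulVec (ρ γ : Matrix (Fin d) (Fin d) ℂ) v ∈ W) →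
    W = ⊥ ∨ W = ⊤

/-- `F = (F_1, …, F_d)` is a square integrable `ρ`-valued automorphic function, all of whose
components are eigenfunctions of the Laplacian `-y² (∂²/∂x² + ∂²/∂y²)` with eigenvalue
`1/4 - ν²` (the conventions are those of the frozen statement). -/
structure IsAutomorphic {d : ℕ} (ρ : SL(2, ℤ) →* Matrix.unitaryGroup (Fin d) ℂ) (ν : ℝ)
    (F : Fin d → ℂ → ℂ) : Prop where
  /-- the components are smooth on the upper half plane -/
  smooth : ∀ j, ContDiffOn ℝ (⊤ : ℕ∞) (F j) {w : ℂ | 0 < w.im}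
  /-- `F (γ z) = ρ(γ) F(z)` -/
  equivariant : ∀ (γ : SL(2, ℤ)) (z : ℍ) (j : Fin d),
    F j ((γ • z : ℍ) : ℂ) = ∑ l, (ρ γ : Matrix (Fin d) (Fin d) ℂ) j l * F l (z : ℂ)
  /-- `-y² (F_xx + F_yy) = (1/4 - ν²) F` -/
  laplace : ∀ (j : Fin d) (z : ℍ),
    -((z.im : ℂ) ^ 2) *
      (deriv (fun s : ℝ => deriv (fun t : ℝ => F j ((t : ℂ) + (z.im : ℂ) * Complex.I)) s) z.re
        + deriv (fun s : ℝ => deriv (fun t : ℝ => F j ((z.re : ℂ) + (t : ℂ) * Complex.I)) s) z.im)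
      = ((1 / 4 - ν ^ 2 : ℝ) : ℂ) * F j (z : ℂ)
  /-- `|F|²` is integrable for `dx dy / y²` on the standard fundamental domain of `SL(2,ℤ)` -/
  sqIntegrable : ∀ j, IntegrableOn (fun w : ℂ => ‖F j w‖ ^ 2 / w.im ^ 2)
    (UpperHalfPlane.coe '' ModularGroup.fd)

/-- The density hypothesis for every irreducible representation of `SL(2,ℤ)` with a congruence
kernel: linearly independent square integrable `ρ`-valued eigenfunctions `F i` with eigenvalues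
`1/4 - (ν i)²`, `ε ≤ ν i ≤ 1/2`, satisfy `∑ i, d ^ (2 ν i) ≤ C d ^ (1 + ε)`, `d = dim ρ`, with `C`
depending only on `ε`; in particular their number is at most `C d ^ (1 - 2 α + ε)` if all
`ν i ≥ α`. -/
theorem result : ∀ ε : ℝ, 0 < ε → ∃ C : ℝ, 0 < C ∧ ∀ (d : ℕ)
    (ρ : SL(2, ℤ) →* Matrix.unitaryGroup (Fin d) ℂ),
    (∃ N : ℕ, 0 < N ∧ CongruenceSubgroup.Gamma N ≤ ρ.ker) → IsIrreducible ρ →
    ∀ (k : ℕ) (ν : Fin k → ℝ) (F : Fin k → Fin d → ℂ → ℂ),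
      (∀ i, ε ≤ ν i) → (∀ i, ν i ≤ 1 / 2) → (∀ i, IsAutomorphic ρ (ν i) (F i)) →
      LinearIndependent ℂ (fun i => fun (z : ℍ) (j : Fin d) => F i j z) →
      (∑ i, (d : ℝ) ^ (2 * ν i) ≤ C * (d : ℝ) ^ (1 + ε)) ∧
      ∀ α : ℝ, (∀ i, α ≤ ν i) → (k : ℝ) ≤ C * (d : ℝ) ^ (1 - 2 * α + ε) := by
  intro ε hε
  obtain ⟨C, hC, h⟩ := Pool.Agent.XE31.V11.main ε hε
  refine ⟨C, hC, fun d ρ hcong hi k ν F hν hν' hF hli => ?_⟩
  have h1 := h d ρ hcong hi k ν F hν hν'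
    (fun i => ⟨(hF i).smooth, (hF i).equivariant, (hF i).laplace, (hF i).sqIntegrable⟩) hli
  refine ⟨h1, fun α hα => ?_⟩
  have hn : (1 : ℝ) ≤ d := by exact_mod_cast hi.1
  have hn0 : (0 : ℝ) < d := by linarith
  have h2 : (k : ℝ) * (d : ℝ) ^ (2 * α) ≤ ∑ i, (d : ℝ) ^ (2 * ν i) := by
    have : (k : ℝ) * (d : ℝ) ^ (2 * α) = ∑ _i : Fin k, (d : ℝ) ^ (2 * α) := by simp
    rw [this]
    exact Finset.sum_le_sum fun i _ =>
      Real.rpow_le_rpow_of_exponent_le hn (by linarith [hα i])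
  have h3 := h2.trans h1
  have h4 : (d : ℝ) ^ (1 + ε) = (d : ℝ) ^ (1 - 2 * α + ε) * (d : ℝ) ^ (2 * α) := by
    rw [← Real.rpow_add hn0]; congr 1; ring
  rw [h4, ← mul_assoc] at h3
  exact le_of_mul_le_mul_right h3 (Real.rpow_pos_of_pos hn0 _)

end Pool.Agent.Results.MP_a812b2_nt.RepresentationDensity
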