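import Pool.Agent.XE31.Y3

/-!
# MP_a812b2_nt: the eigenvalues near `1/4`, for every irreducible representation separately

There is an absolute constant `C` such that for every irreducible unitary representation `ρ` of
`SL(2,ℤ)` of dimension `d` which is trivial on some `Γ(N)` (no matter which), the `ρ`-valued Maass
cusp forms `F : ℍ → ℂ ^ d`, `F (γ z) = ρ(γ) F(z)`, satisfy:

* `∑ d ^ (ν_i / 50) ≤ C d / (1 + log d) ^ 3` over the forms with eigenvalues `1/4 - ν_i ^ 2 ≤ 1/4`;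
* there are at most `C d (t + 1 / (1 + log d)) ^ 3` forms with eigenvalues `≤ 1/4 + t ^ 2`,
  `0 ≤ t ≤ 1/3`.

The second bound has the order of magnitude of the Plancherel measure down to the scale
`t = 1 / log d`.
-/

set_option autoImplicit false

open MeasureTheory
open scoped MatrixGroups UpperHalfPlane

namespace Pool.Agent.Results.MP_a812b2_nt.RepresentationTemperedEdge

/-- `ρ` is irreducible: `d > 0` and no subspace of `ℂ ^ d` but `0` and `ℂ ^ d` is invariant. -/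
def IsIrreducible {d : ℕ} (ρ : SL(2, ℤ) →* Matrix.unitaryGroup (Fin d) ℂ) : Prop :=
  0 < d ∧ ∀ W : Submodule ℂ (Fin d → ℂ),
    (∀ (γ : SL(2, ℤ)), ∀ v ∈ W, Matrix.mulVec (ρ γ : Matrix (Fin d) (Fin d) ℂ) v ∈ W) →
    W = ⊥ ∨ W = ⊤

/-- `F = (F_1, …, F_d)` is a `ρ`-valued Maass cusp form: a square integrable cuspidal
automorphic function with `F (γ z) = ρ(γ) F(z)`, all of whose components are eigenfunctions of the
Laplacian `-y² (∂²/∂x² + ∂²/∂y²)` with eigenvalue `κ`. -/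
structure IsCuspForm {d : ℕ} (ρ : SL(2, ℤ) →* Matrix.unitaryGroup (Fin d) ℂ) (κ : ℝ)
    (F : Fin d → ℂ → ℂ) : Prop where
  /-- the components are smooth on the upper half plane -/
  smooth : ∀ j, ContDiffOn ℝ (⊤ : ℕ∞) (F j) {w : ℂ | 0 < w.im}
  /-- `F (γ z) = ρ(γ) F(z)` -/
  equivariant : ∀ (γ : SL(2, ℤ)) (z : ℍ) (j : Fin d),
    F j ((γ • z : ℍ) : ℂ) = ∑ l, (ρ γ : Matrix (Fin d) (Fin d) ℂ) j l * F l (z : ℂ)
  /-- `-y² (F_xx + F_yy) = κ F` -/
  laplace : ∀ (j : Fin d) (z : ℍ),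
    -((z.im : ℂ) ^ 2) *
      (deriv (fun s : ℝ => deriv (fun t : ℝ => F j ((t : ℂ) + (z.im : ℂ) * Complex.I)) s) z.re
        + deriv (fun s : ℝ => deriv (fun t : ℝ => F j ((z.re : ℂ) + (t : ℂ) * Complex.I)) s) z.im)
      = (κ : ℂ) * F j (z : ℂ)
  /-- `|F|²` is integrable for `dx dy / y²` on the standard fundamental domain of `SL(2,ℤ)` -/
  sqIntegrable : ∀ j, IntegrableOn (fun w : ℂ => ‖F j w‖ ^ 2 / w.im ^ 2)
    (UpperHalfPlane.coe '' ModularGroup.fd)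
  /-- the constant terms vanish (at the cusp `∞`, hence at all cusps since `F` is equivariant) -/
  cuspidal : ∀ (j : Fin d) (N : ℕ), 0 < N → CongruenceSubgroup.Gamma N ≤ ρ.ker →
    ∀ y : ℝ, 0 < y → ∫ x in (0 : ℝ)..N, F j (⟨x, y⟩ : ℂ) = 0

/-- For every irreducible representation `ρ` of `SL(2,ℤ)` with a congruence kernel, of dimension
`d`, linearly independent `ρ`-valued Maass cusp forms `F i` with eigenvalues `κ i` satisfy, with one
absolute constant `C`: if `κ i ≤ 1/4`, then `∑ i, d ^ (√(1/4 - κ i) / 50) ≤ C d / (1 + log d) ^ 3`;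
if `κ i ≤ 1/4 + t ^ 2`, `0 ≤ t ≤ 1/3`, then their number is at most
`C d (t + 1 / (1 + log d)) ^ 3`. -/
theorem result : ∃ C : ℝ, 0 < C ∧ ∀ (d : ℕ)
    (ρ : SL(2, ℤ) →* Matrix.unitaryGroup (Fin d) ℂ),
    (∃ N : ℕ, 0 < N ∧ CongruenceSubgroup.Gamma N ≤ ρ.ker) → IsIrreducible ρ →
    ∀ (k : ℕ) (κ : Fin k → ℝ) (F : Fin k → Fin d → ℂ → ℂ), (∀ i, IsCuspForm ρ (κ i) (F i)) →
      LinearIndependent ℂ (fun i => fun (z : ℍ) (j : Fin d) => F i j z) →
      ((∀ i, κ i ≤ 1 / 4) →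
        ∑ i, (d : ℝ) ^ (√(1 / 4 - κ i) / 50) ≤ C * d / (1 + Real.log d) ^ 3) ∧
      (∀ t : ℝ, 0 ≤ t → t ≤ 1 / 3 → (∀ i, κ i ≤ 1 / 4 + t ^ 2) →
        (k : ℝ) ≤ C * d * (t + 1 / (1 + Real.log d)) ^ 3) := by
  obtain ⟨C, hC, h⟩ := Pool.Agent.XE31.Y3.main
  refine ⟨C, hC, fun d ρ hcong hi k κ F hF hli => ?_⟩
  exact h d ρ hcong hi k κ F
    (fun i => ⟨fun j => ⟨(hF i).smooth j, (hF i).laplace j⟩, (hF i).equivariant,
      (hF i).sqIntegrable, fun j N hN hρ y hy => (hF i).cuspidal j N hN hρ y hy⟩) hli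

end Pool.Agent.Results.MP_a812b2_nt.RepresentationTemperedEdge
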