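import Pool.Agent.XE31.Z2

/-!
# MP_a812b2_nt: the density theorem for all unitary twists of all congruence subgroups

For every `ε > 0` there is a constant `C` such that for every congruence subgroup `Γ` of `SL(2,ℤ)`, of
index `n`, and every unitary representation `χ` of `Γ` with a congruence kernel, of any dimension `r`
and any conductor, the Laplace eigenvalues `1/4 - ν_i ^ 2` with `ν_i ≥ ε` of the square integrable
functions `f : ℍ → ℂ ^ r`, `f (γ z) = χ(γ) f(z)` for `γ ∈ Γ`, satisfy `∑ n ^ (2 ν_i) ≤ C r n ^ (1 + ε)`.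
-/

set_option autoImplicit false

open MeasureTheory
open scoped MatrixGroups UpperHalfPlane

namespace Pool.Agent.Results.MP_a812b2_nt.TwistedDensity

/-- The kernel of `χ` contains the principal congruence subgroup `Γ(N)`, `N ≥ 1` (in particular
`Γ(N) ⊆ Γ`, so that `Γ` is a congruence subgroup). -/
def TrivialOn {Γ : Subgroup SL(2, ℤ)} {r : ℕ} (χ : Γ →* Matrix.unitaryGroup (Fin r) ℂ) (N : ℕ) :
    Prop :=
  0 < N ∧ ∀ γ ∈ CongruenceSubgroup.Gamma N, ∃ h : γ ∈ Γ, χ ⟨γ, h⟩ = 1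

/-- `f = (f_1, …, f_r)` is a square integrable function on `ℍ` with `f (γ z) = χ(γ) f(z)` for all
`γ ∈ Γ`, all of whose components are smooth eigenfunctions of the Laplacian `-y² (∂²/∂x² + ∂²/∂y²)`
with eigenvalue `1/4 - ν²` (the conventions are those of the frozen statement). -/
structure IsTwisted {Γ : Subgroup SL(2, ℤ)} {r : ℕ} (χ : Γ →* Matrix.unitaryGroup (Fin r) ℂ)
    (ν : ℝ) (f : Fin r → ℂ → ℂ) : Prop where
  /-- the components are smooth on the upper half plane -/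
  smooth : ∀ j, ContDiffOn ℝ (⊤ : ℕ∞) (f j) {w : ℂ | 0 < w.im}
  /-- `f (γ z) = χ(γ) f(z)` for `γ ∈ Γ` -/
  equivariant : ∀ (γ : Γ) (z : ℍ) (j : Fin r),
    f j (((γ : SL(2, ℤ)) • z : ℍ) : ℂ) =
      ∑ l, (χ γ : Matrix (Fin r) (Fin r) ℂ) j l * f l (z : ℂ)
  /-- `-y² (f_xx + f_yy) = (1/4 - ν²) f` -/
  laplace : ∀ (j : Fin r) (z : ℍ),
    -((z.im : ℂ) ^ 2) *
      (deriv (fun s : ℝ => deriv (fun t : ℝ => f j ((t : ℂ) + (z.im : ℂ) * Complex.I)) s) z.re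
        + deriv (fun s : ℝ => deriv (fun t : ℝ => f j ((z.re : ℂ) + (t : ℂ) * Complex.I)) s) z.im)
      = ((1 / 4 - ν ^ 2 : ℝ) : ℂ) * f j (z : ℂ)
  /-- `|f|²` is integrable for `dx dy / y²` on every `SL(2,ℤ)`-translate of the standard
  fundamental domain -/
  sqIntegrable : ∀ (j : Fin r) (γ : SL(2, ℤ)),
    IntegrableOn (fun w : ℂ => ‖f j w‖ ^ 2 / w.im ^ 2)
      ((fun z : ℍ => ((γ • z : ℍ) : ℂ)) '' ModularGroup.fd)

/-- The density theorem for all unitary twists of all congruence subgroups: linearly independent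
square integrable `χ`-twisted eigenfunctions `f i` on `Γ \ ℍ` with eigenvalues `1/4 - (ν i)²`,
`ε ≤ ν i ≤ 1/2`, satisfy `∑ i, n ^ (2 ν i) ≤ C r n ^ (1 + ε)`, `n = [SL(2,ℤ) : Γ]`, `r = dim χ`,
with `C` depending only on `ε`; in particular their number is at most `C r n ^ (1 - 2 α + ε)` if
all `ν i ≥ α`. -/
theorem result : ∀ ε : ℝ, 0 < ε → ∃ C : ℝ, 0 < C ∧ ∀ (Γ : Subgroup SL(2, ℤ)) (r : ℕ)
    (χ : Γ →* Matrix.unitaryGroup (Fin r) ℂ), (∃ N : ℕ, TrivialOn χ N) →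
    ∀ (k : ℕ) (ν : Fin k → ℝ) (f : Fin k → Fin r → ℂ → ℂ),
      (∀ i, ε ≤ ν i) → (∀ i, ν i ≤ 1 / 2) → (∀ i, IsTwisted χ (ν i) (f i)) →
      LinearIndependent ℂ (fun i => fun (z : ℍ) (j : Fin r) => f i j z) →
      (∑ i, (Γ.index : ℝ) ^ (2 * ν i) ≤ C * r * (Γ.index : ℝ) ^ (1 + ε)) ∧
      ∀ α : ℝ, (∀ i, α ≤ ν i) → (k : ℝ) ≤ C * r * (Γ.index : ℝ) ^ (1 - 2 * α + ε) := by
  intro ε hε
  obtain ⟨C, hC, h⟩ := Pool.Agent.XE31.Z2.main ε hε
  refine ⟨C, hC, fun Γ r χ hχ k ν f hν hν' hf hli => ?_⟩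
  have h1 := h Γ r χ hχ k ν f hν hν'
    (fun i => ⟨(hf i).smooth, (hf i).equivariant, (hf i).laplace, (hf i).sqIntegrable⟩) hli
  rw [← mul_assoc] at h1
  refine ⟨h1, fun α hα => ?_⟩
  have hn : (1 : ℝ) ≤ Γ.index := by
    obtain ⟨N, hN, hle⟩ := hχ
    have : NeZero N := ⟨hN.ne'⟩
    have hfin : Γ.FiniteIndex :=
      Subgroup.finiteIndex_of_le (H := CongruenceSubgroup.Gamma N) fun γ hγ => (hle γ hγ).1
    exact_mod_cast Nat.pos_of_ne_zero hfin.index_ne_zero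
  have hn0 : (0 : ℝ) < Γ.index := by linarith
  have h2 : (k : ℝ) * (Γ.index : ℝ) ^ (2 * α) ≤ ∑ i, (Γ.index : ℝ) ^ (2 * ν i) := by
    have : (k : ℝ) * (Γ.index : ℝ) ^ (2 * α) = ∑ _i : Fin k, (Γ.index : ℝ) ^ (2 * α) := by simp
    rw [this]
    exact Finset.sum_le_sum fun i _ =>
      Real.rpow_le_rpow_of_exponent_le hn (by linarith [hα i])
  have h3 := h2.trans h1
  have h4 : (Γ.index : ℝ) ^ (1 + ε) =
      (Γ.index : ℝ) ^ (1 - 2 * α + ε) * (Γ.index : ℝ) ^ (2 * α) := by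
    rw [← Real.rpow_add hn0]; congr 1; ring
  rw [h4, ← mul_assoc] at h3
  exact le_of_mul_le_mul_right h3 (Real.rpow_pos_of_pos hn0 _)

end Pool.Agent.Results.MP_a812b2_nt.TwistedDensity
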