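import Pool.Agent.XE31.R1

/-!
# MP_a812b2_nt: a uniform bound for all exceptional eigenvalues, up to and including `1/4`

There is an ABSOLUTE constant `C` such that for EVERY congruence subgroup `Γ` of `SL(2,ℤ)`, of index
`n`, the Laplace eigenvalues `1/4 - ν_i ^ 2 ≤ 1/4` of the cusp forms on `Γ \ ℍ` (with multiplicity,
`0 ≤ ν_i`) satisfy `∑ n ^ (ν_i / 840) ≤ C n / (1 + log n) ^ 3`.
-/

set_option autoImplicit false

open MeasureTheory
open scoped MatrixGroups UpperHalfPlane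

namespace Pool.Agent.Results.MP_a812b2_nt.UniformExceptionalCount

/-- `f` is a square integrable cuspidal eigenfunction of the Laplacian `-y² (∂²/∂x² + ∂²/∂y²)` on
`Γ \ ℍ`, with eigenvalue `1/4 - ν²` (the conventions are those of the frozen statement). -/
structure IsCuspForm (Γ : Subgroup SL(2, ℤ)) (ν : ℝ) (f : ℂ → ℂ) : Prop where
  /-- `f` is smooth on the upper half plane -/
  smooth : ContDiffOn ℝ (⊤ : ℕ∞) f {w : ℂ | 0 < w.im}
  /-- `f` is `Γ`-invariant -/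
  invariant : ∀ γ ∈ Γ, ∀ z : ℍ, f ((γ • z : ℍ) : ℂ) = f (z : ℂ)
  /-- `-y² (f_xx + f_yy) = (1/4 - ν²) f` -/
  laplace : ∀ z : ℍ,
    -((z.im : ℂ) ^ 2) *
      (deriv (fun s : ℝ => deriv (fun t : ℝ => f ((t : ℂ) + (z.im : ℂ) * Complex.I)) s) z.re
        + deriv (fun s : ℝ => deriv (fun t : ℝ => f ((z.re : ℂ) + (t : ℂ) * Complex.I)) s) z.im)
      = ((1 / 4 - ν ^ 2 : ℝ) : ℂ) * f (z : ℂ)
  /-- `f` is square integrable for `dx dy / y²` on every translate of the fundamental domain -/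
  sqIntegrable : ∀ γ : SL(2, ℤ), IntegrableOn (fun w : ℂ => ‖f w‖ ^ 2 / w.im ^ 2)
    ((fun z : ℍ => ((γ • z : ℍ) : ℂ)) '' ModularGroup.fd)
  /-- the constant terms of `f` at all cusps vanish -/
  cuspidal : ∀ (γ : SL(2, ℤ)) (N : ℕ), 0 < N → CongruenceSubgroup.Gamma N ≤ Γ →
    ∀ (y : ℝ) (hy : 0 < y), ∫ x in (0 : ℝ)..N, f ((γ • (⟨⟨x, y⟩, hy⟩ : ℍ) : ℍ) : ℂ) = 0

/-- Linearly independent cusp forms `f i` on `Γ \ ℍ` with eigenvalues `1/4 - (ν i)² ≤ 1/4` satisfy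
`∑ i, n ^ (ν i / 840) ≤ C n / (1 + log n) ^ 3`, `n = [SL(2,ℤ) : Γ]`, with an absolute constant `C`;
in particular their number is at most `C n ^ (1 - α / 840) / (1 + log n) ^ 3` if all `ν i ≥ α`. -/
theorem result : ∃ C : ℝ, 0 < C ∧ ∀ Γ : Subgroup SL(2, ℤ),
    (∃ N : ℕ, 0 < N ∧ CongruenceSubgroup.Gamma N ≤ Γ) →
    ∀ (k : ℕ) (ν : Fin k → ℝ) (f : Fin k → ℂ → ℂ),
      (∀ i, 0 ≤ ν i) → (∀ i, IsCuspForm Γ (ν i) (f i)) →
      LinearIndependent ℂ (fun i => fun z : ℍ => f i z) →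
      (∑ i, (Γ.index : ℝ) ^ (ν i / 840) ≤ C * Γ.index / (1 + Real.log Γ.index) ^ 3) ∧
      ∀ α : ℝ, (∀ i, α ≤ ν i) →
        (k : ℝ) ≤ C * (Γ.index : ℝ) ^ (1 - α / 840) / (1 + Real.log Γ.index) ^ 3 := by
  obtain ⟨C, hC, h⟩ := Pool.Agent.XE31.R1.main
  refine ⟨C, hC, fun Γ hΓ k ν f hν hf hli => ?_⟩
  have h1 := h Γ hΓ k ν f hν
    (fun i => ⟨(hf i).smooth, (hf i).invariant, (hf i).laplace, (hf i).sqIntegrable⟩)
    (fun i => (hf i).cuspidal) hli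
  refine ⟨h1, fun α hα => ?_⟩
  have hn : (1 : ℝ) ≤ Γ.index := by
    obtain ⟨N, hN, hle⟩ := hΓ
    have : NeZero N := ⟨hN.ne'⟩
    have hfin : Γ.FiniteIndex := Subgroup.finiteIndex_of_le hle
    exact_mod_cast Nat.pos_of_ne_zero hfin.index_ne_zero
  have hn0 : (0 : ℝ) < Γ.index := by linarith
  have hlog : 0 ≤ Real.log Γ.index := Real.log_nonneg hn
  have h2 : (k : ℝ) * (Γ.index : ℝ) ^ (α / 840) ≤ ∑ i, (Γ.index : ℝ) ^ (ν i / 840) := by
    have : (k : ℝ) * (Γ.index : ℝ) ^ (α / 840) = ∑ _i : Fin k, (Γ.index : ℝ) ^ (α / 840) := by simp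
    rw [this]
    exact Finset.sum_le_sum fun i _ =>
      Real.rpow_le_rpow_of_exponent_le hn (by linarith [hα i])
  have h3 := h2.trans h1
  have h4 : (Γ.index : ℝ) = (Γ.index : ℝ) ^ (1 - α / 840) * (Γ.index : ℝ) ^ (α / 840) := by
    rw [← Real.rpow_add hn0, sub_add_cancel, Real.rpow_one]
  have h5 : (k : ℝ) * (Γ.index : ℝ) ^ (α / 840) ≤
      (C * (Γ.index : ℝ) ^ (1 - α / 840) / (1 + Real.log Γ.index) ^ 3) *
        (Γ.index : ℝ) ^ (α / 840) := by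
    refine h3.trans (le_of_eq ?_)
    conv_lhs => rw [mul_div_assoc]; enter [2, 1]; rw [h4]
    ring
  exact le_of_mul_le_mul_right h5 (Real.rpow_pos_of_pos hn0 _)

end Pool.Agent.Results.MP_a812b2_nt.UniformExceptionalCount
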